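import Mathlib

/-! Linear algebra of two positive definite matrices of determinant one. -/

set_option autoImplicit false

namespace Pool.Agent.K1H99.HM

open Complex Matrix

open scoped ComplexOrder

/-- a positive definite matrix is diagonalized by a unitary matrix -/
theorem diag_unitary {A : Matrix (Fin 2) (Fin 2) ℂ} (hA : A.PosDef) :
    ∃ (U : Matrix (Fin 2) (Fin 2) ℂ) (l : Fin 2 → ℝ), Uᴴ * U = 1 ∧ (∀ i, 0 < l i) ∧
      Uᴴ * A * U = diagonal (fun i => (l i : ℂ)) := by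
  have hH := hA.isHermitian
  refine ⟨hH.eigenvectorUnitary, hH.eigenvalues, ?_, fun i => hA.eigenvalues_pos i, ?_⟩
  · have := (Matrix.mem_unitaryGroup_iff' (A := (hH.eigenvectorUnitary : Matrix (Fin 2) (Fin 2) ℂ))).1
      hH.eigenvectorUnitary.2
    exact this
  · have h := hH.conjStarAlgAut_star_eigenvectorUnitary
    rw [Unitary.conjStarAlgAut_apply] at h
    simp only [star_star, Unitary.coe_star] at h
    exact h

/-- simultaneous diagonalization -/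
theorem simul {K H : Matrix (Fin 2) (Fin 2) ℂ} (hK : K.PosDef) (hH : H.PosDef) (dK : K.det = 1)
    (dH : H.det = 1) : ∃ (P : Matrix (Fin 2) (Fin 2) ℂ) (σ : ℝ), P.det ≠ 0 ∧ 0 < σ ∧
      Pᴴ * K * P = 1 ∧ Pᴴ * H * P = !![(σ : ℂ), 0; 0, (σ : ℂ)⁻¹] := by
  obtain ⟨U, l, hU, hl, hUK⟩ := diag_unitary hK
  set D : Matrix (Fin 2) (Fin 2) ℂ := diagonal (fun i => ((Real.sqrt (l i))⁻¹ : ℂ)) with hD
  set P0 := U * D with hP0
  have hDh : Dᴴ = D := by
    rw [hD, diagonal_conjTranspose]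
    congr 1
    funext i
    simp
  have h0 : P0ᴴ * K * P0 = 1 := by
    have : P0ᴴ * K * P0 = D * (Uᴴ * K * U) * D := by
      rw [hP0, conjTranspose_mul, hDh]
      simp only [Matrix.mul_assoc]
    rw [this, hUK, hD, diagonal_mul_diagonal, diagonal_mul_diagonal, ← diagonal_one]
    congr 1
    funext i
    have h1 : (Real.sqrt (l i)) * (Real.sqrt (l i)) = l i := Real.mul_self_sqrt (hl i).le
    have h2 : (Real.sqrt (l i) : ℝ) ≠ 0 := (Real.sqrt_pos.2 (hl i)).ne'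
    have h3 : ((Real.sqrt (l i) : ℝ) : ℂ) ≠ 0 := by exact_mod_cast h2
    have h4 : ((Real.sqrt (l i) : ℝ) : ℂ) * ((Real.sqrt (l i) : ℝ) : ℂ) = (l i : ℂ) := by
      exact_mod_cast h1
    rw [← h4]
    field_simp
  have hdet0 : P0.det ≠ 0 := by
    intro h
    have := congrArg det h0
    rw [det_mul, h, mul_zero, det_one] at this
    exact zero_ne_one this
  have hH' : (P0ᴴ * H * P0).PosDef := by
    refine hH.conjTranspose_mul_mul_same ?_
    exact Matrix.mulVec_injective_of_isUnit ((Matrix.isUnit_iff_isUnit_det P0).2 (isUnit_iff_ne_zero.2 hdet0))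
  obtain ⟨V, m, hV, hm, hVH⟩ := diag_unitary hH'
  set P := P0 * V with hP
  have e1 : Pᴴ * K * P = 1 := by
    have : Pᴴ * K * P = Vᴴ * (P0ᴴ * K * P0) * V := by
      rw [hP, conjTranspose_mul]
      simp only [Matrix.mul_assoc]
    rw [this, h0, Matrix.mul_one, hV]
  have e2 : Pᴴ * H * P = diagonal (fun i => (m i : ℂ)) := by
    have : Pᴴ * H * P = Vᴴ * (P0ᴴ * H * P0) * V := by
      rw [hP, conjTranspose_mul]
      simp only [Matrix.mul_assoc]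
    rw [this, hVH]
  have hdet : P.det ≠ 0 := by
    intro h
    have := congrArg det e1
    rw [det_mul, h, mul_zero, det_one] at this
    exact zero_ne_one this
  refine ⟨P, m 0, hdet, hm 0, e1, ?_⟩
  rw [e2]
  have d1 : Pᴴ.det * P.det = 1 := by
    have := congrArg det e1
    rw [det_mul, det_mul, dK, mul_one, det_one] at this
    exact this
  have d2 : (m 0 : ℂ) * (m 1 : ℂ) = 1 := by
    have := congrArg det e2
    rw [det_mul, det_mul, dH, mul_one, det_diagonal, Fin.prod_univ_two, d1] at this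
    exact this.symm
  have h0' : (m 0 : ℂ) ≠ 0 := by exact_mod_cast (hm 0).ne'
  have d3 : (m 1 : ℂ) = (m 0 : ℂ)⁻¹ := by
    rw [← one_div, eq_div_iff h0', mul_comm]
    exact d2
  ext i j
  fin_cases i <;> fin_cases j <;> simp [d3]

/-- the adjoint of `φ` with respect to the metric `H` -/
noncomputable def adj (H φ : Matrix (Fin 2) (Fin 2) ℂ) : Matrix (Fin 2) (Fin 2) ℂ := H⁻¹ * φᴴ * H

/-- the commutator of `φ` with its adjoint -/
noncomputable def com (H φ : Matrix (Fin 2) (Fin 2) ℂ) : Matrix (Fin 2) (Fin 2) ℂ :=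
  φ * adj H φ - adj H φ * φ

/-- the square of the norm of `φ` with respect to `H` -/
noncomputable def nrm (H φ : Matrix (Fin 2) (Fin 2) ℂ) : ℝ := (φ * adj H φ).trace.re

section point

variable {K H φ P : Matrix (Fin 2) (Fin 2) ℂ} {σ : ℝ}

/-- the data of a simultaneous diagonalization -/
structure SD (K H P : Matrix (Fin 2) (Fin 2) ℂ) (σ : ℝ) : Prop where
  det : P.det ≠ 0
  pos : 0 < σ
  one : Pᴴ * K * P = 1
  two : Pᴴ * H * P = !![(σ : ℂ), 0; 0, (σ : ℂ)⁻¹]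

/-- the diagonal matrix -/
noncomputable def SS (σ : ℝ) : Matrix (Fin 2) (Fin 2) ℂ := !![(σ : ℂ), 0; 0, (σ : ℂ)⁻¹]

theorem SS_mul (h : 0 < σ) : SS σ * SS σ⁻¹ = 1 := by
  have h0 : (σ : ℂ) ≠ 0 := by exact_mod_cast h.ne'
  unfold SS
  ext i j
  fin_cases i <;> fin_cases j <;> simp [Matrix.mul_apply, Fin.sum_univ_two, h0]

theorem SS_mul' (h : 0 < σ) : SS σ⁻¹ * SS σ = 1 := by
  have h0 : (σ : ℂ) ≠ 0 := by exact_mod_cast h.ne'
  unfold SS
  ext i j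
  fin_cases i <;> fin_cases j <;> simp [Matrix.mul_apply, Fin.sum_univ_two, h0]

theorem SD.forms (h : SD K H P σ) : ∃ Q : Matrix (Fin 2) (Fin 2) ℂ, Q * P = 1 ∧ P * Q = 1 ∧
    Pᴴ * Qᴴ = 1 ∧ Qᴴ * Pᴴ = 1 ∧ K = Qᴴ * Q ∧ H = Qᴴ * SS σ * Q ∧ K⁻¹ = P * Pᴴ ∧
      H⁻¹ = P * SS σ⁻¹ * Pᴴ := by
  have hu : IsUnit P.det := isUnit_iff_ne_zero.2 h.det
  have e1 : P⁻¹ * P = 1 := Matrix.nonsing_inv_mul P hu
  have e2 : P * P⁻¹ = 1 := Matrix.mul_nonsing_inv P hu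
  have e3 : Pᴴ * (P⁻¹)ᴴ = 1 := by rw [← conjTranspose_mul, e1, conjTranspose_one]
  have e4 : (P⁻¹)ᴴ * Pᴴ = 1 := by rw [← conjTranspose_mul, e2, conjTranspose_one]
  have e5 : K = (P⁻¹)ᴴ * P⁻¹ := by
    calc K = ((P⁻¹)ᴴ * Pᴴ) * K * (P * P⁻¹) := by rw [e4, e2, Matrix.one_mul, Matrix.mul_one]
      _ = (P⁻¹)ᴴ * (Pᴴ * K * P) * P⁻¹ := by simp only [Matrix.mul_assoc]
      _ = _ := by rw [h.one, Matrix.mul_one]
  have e6 : H = (P⁻¹)ᴴ * SS σ * P⁻¹ := by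
    calc H = ((P⁻¹)ᴴ * Pᴴ) * H * (P * P⁻¹) := by rw [e4, e2, Matrix.one_mul, Matrix.mul_one]
      _ = (P⁻¹)ᴴ * (Pᴴ * H * P) * P⁻¹ := by simp only [Matrix.mul_assoc]
      _ = _ := by rw [h.two]; rfl
  refine ⟨P⁻¹, e1, e2, e3, e4, e5, e6, ?_, ?_⟩
  · refine Matrix.inv_eq_left_inv ?_
    rw [e5]
    calc P * Pᴴ * ((P⁻¹)ᴴ * P⁻¹) = P * (Pᴴ * (P⁻¹)ᴴ) * P⁻¹ := by simp only [Matrix.mul_assoc]
      _ = 1 := by rw [e3, Matrix.mul_one, e2]
  · refine Matrix.inv_eq_left_inv ?_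
    rw [e6]
    calc P * SS σ⁻¹ * Pᴴ * ((P⁻¹)ᴴ * SS σ * P⁻¹) =
        P * SS σ⁻¹ * (Pᴴ * (P⁻¹)ᴴ) * SS σ * P⁻¹ := by simp only [Matrix.mul_assoc]
      _ = P * (SS σ⁻¹ * SS σ) * P⁻¹ := by
        rw [e3, Matrix.mul_one]; simp only [Matrix.mul_assoc]
      _ = 1 := by rw [SS_mul' h.pos, Matrix.mul_one, e2]

theorem trace_conj {P Q X : Matrix (Fin 2) (Fin 2) ℂ} (h : Q * P = 1) :
    (P * X * Q).trace = X.trace := by
  rw [Matrix.trace_mul_comm, ← Matrix.mul_assoc, h, Matrix.one_mul]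

/-- everything in terms of the entries of `ψ = P⁻¹ φ P` -/
theorem SD.calc (h : SD K H P σ) (φ : Matrix (Fin 2) (Fin 2) ℂ) :
    ∃ a x y c : ℝ, 0 ≤ a ∧ 0 ≤ x ∧ 0 ≤ y ∧ 0 ≤ c ∧ nrm K φ = a + x + y + c ∧
      nrm H φ = a + σ ^ 2 * x + (σ⁻¹) ^ 2 * y + c ∧
      (K⁻¹ * H).trace = ((σ + σ⁻¹ : ℝ) : ℂ) ∧
      (K⁻¹ * H * com K φ).trace.re = (σ - σ⁻¹) * (x - y) ∧
      (K⁻¹ * H * com H φ).trace.re = (σ - σ⁻¹) * (σ ^ 2 * x - (σ⁻¹) ^ 2 * y) := by
  obtain ⟨Q, e1, e2, e3, e4, hK, hH, hKi, hHi⟩ := h.forms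
  have h0 : (σ : ℂ) ≠ 0 := by exact_mod_cast h.pos.ne'
  have h0' : σ ≠ 0 := h.pos.ne'
  set ψ := Q * φ * P with hψ
  have hφ : φ = P * ψ * Q := by
    rw [hψ]
    calc φ = (P * Q) * φ * (P * Q) := by rw [e2, Matrix.one_mul, Matrix.mul_one]
      _ = _ := by simp only [Matrix.mul_assoc]
  have hφs : φᴴ = Qᴴ * ψᴴ * Pᴴ := by
    rw [hφ, conjTranspose_mul, conjTranspose_mul, Matrix.mul_assoc]
  have r1 : ∀ X : Matrix (Fin 2) (Fin 2) ℂ, Q * (P * X) = X := fun X => by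
    rw [← Matrix.mul_assoc, e1, Matrix.one_mul]
  have r2 : ∀ X : Matrix (Fin 2) (Fin 2) ℂ, P * (Q * X) = X := fun X => by
    rw [← Matrix.mul_assoc, e2, Matrix.one_mul]
  have r3 : ∀ X : Matrix (Fin 2) (Fin 2) ℂ, Pᴴ * (Qᴴ * X) = X := fun X => by
    rw [← Matrix.mul_assoc, e3, Matrix.one_mul]
  have aK : adj K φ = P * ψᴴ * Q := by
    unfold adj
    rw [hKi, hφs, hK]
    simp only [Matrix.mul_assoc, r3]
  have aH : adj H φ = P * (SS σ⁻¹ * ψᴴ * SS σ) * Q := by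
    unfold adj
    rw [hHi, hφs, hH]
    simp only [Matrix.mul_assoc, r3]
  have hKH : K⁻¹ * H = P * SS σ * Q := by
    rw [hKi, hH]
    simp only [Matrix.mul_assoc, r3]
  have m1 : ∀ X Y : Matrix (Fin 2) (Fin 2) ℂ, (P * X * Q) * (P * Y * Q) = P * (X * Y) * Q := by
    intro X Y
    simp only [Matrix.mul_assoc, r1]
  have m2 : ∀ X Y : Matrix (Fin 2) (Fin 2) ℂ, (P * X * Q) - (P * Y * Q) = P * (X - Y) * Q := by
    intro X Y
    rw [Matrix.mul_sub, Matrix.sub_mul]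
  refine ⟨normSq (ψ 0 0), normSq (ψ 0 1), normSq (ψ 1 0), normSq (ψ 1 1), normSq_nonneg _,
    normSq_nonneg _, normSq_nonneg _, normSq_nonneg _, ?_, ?_, ?_, ?_, ?_⟩
  · unfold nrm
    rw [aK]
    nth_rewrite 1 [hφ]
    rw [m1, trace_conj e1]
    simp only [Matrix.trace_fin_two, Matrix.mul_apply, Fin.sum_univ_two, conjTranspose_apply,
      RCLike.star_def, mul_conj, add_re, ofReal_re]
    ring
  · unfold nrm
    rw [aH]
    nth_rewrite 1 [hφ]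
    rw [m1, trace_conj e1]
    simp only [SS, Matrix.trace_fin_two, Matrix.mul_apply, Fin.sum_univ_two, conjTranspose_apply,
      RCLike.star_def, Matrix.of_apply, Matrix.cons_val_zero, Matrix.cons_val_one, Matrix.cons_val',
      Matrix.cons_val_fin_one, zero_mul, mul_zero, add_zero, zero_add, ofReal_inv]
    have : ψ 0 0 * ((σ : ℂ)⁻¹ * (starRingEnd ℂ) (ψ 0 0) * σ) + ψ 0 1 * ((σ : ℂ)⁻¹⁻¹ *
        (starRingEnd ℂ) (ψ 0 1) * σ) + (ψ 1 0 * ((σ : ℂ)⁻¹ * (starRingEnd ℂ) (ψ 1 0) * (σ : ℂ)⁻¹) +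
        ψ 1 1 * ((σ : ℂ)⁻¹⁻¹ * (starRingEnd ℂ) (ψ 1 1) * (σ : ℂ)⁻¹)) =
        ψ 0 0 * (starRingEnd ℂ) (ψ 0 0) + (σ : ℂ) ^ 2 * (ψ 0 1 * (starRingEnd ℂ) (ψ 0 1)) +
          ((σ : ℂ)⁻¹) ^ 2 * (ψ 1 0 * (starRingEnd ℂ) (ψ 1 0)) +
          ψ 1 1 * (starRingEnd ℂ) (ψ 1 1) := by
      field_simp
      ring
    rw [this]
    simp only [mul_conj]
    norm_cast
  · rw [hKH, trace_conj e1]
    simp only [SS, Matrix.trace_fin_two, Matrix.of_apply, Matrix.cons_val_zero, Matrix.cons_val_one,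
      Matrix.cons_val', Matrix.cons_val_fin_one]
    push_cast
    rfl
  · unfold com
    rw [hKH, aK]
    nth_rewrite 1 [hφ]
    nth_rewrite 1 [hφ]
    rw [m1, m1, m2, m1, trace_conj e1]
    simp only [SS, Matrix.trace_fin_two, Matrix.mul_apply, Matrix.sub_apply, Fin.sum_univ_two,
      conjTranspose_apply,
      RCLike.star_def, Matrix.of_apply, Matrix.cons_val_zero, Matrix.cons_val_one, Matrix.cons_val',
      Matrix.cons_val_fin_one, zero_mul, mul_zero, add_zero, zero_add, mul_conj]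
    have c1 : ∀ w : ℂ, (starRingEnd ℂ) w * w = (normSq w : ℂ) := fun w => by
      rw [mul_comm, mul_conj]
    simp only [c1]
    norm_cast
    ring
  · unfold com
    rw [hKH, aH]
    nth_rewrite 1 [hφ]
    nth_rewrite 1 [hφ]
    rw [m1, m1, m2, m1, trace_conj e1]
    simp only [SS, Matrix.trace_fin_two, Matrix.mul_apply, Matrix.sub_apply, Fin.sum_univ_two,
      conjTranspose_apply,
      RCLike.star_def, Matrix.of_apply, Matrix.cons_val_zero, Matrix.cons_val_one, Matrix.cons_val',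
      Matrix.cons_val_fin_one, zero_mul, mul_zero, add_zero, zero_add, ofReal_inv]
    have : (σ : ℂ) * (ψ 0 0 * ((σ : ℂ)⁻¹ * (starRingEnd ℂ) (ψ 0 0) * σ) + ψ 0 1 * ((σ : ℂ)⁻¹⁻¹ *
        (starRingEnd ℂ) (ψ 0 1) * σ) - ((σ : ℂ)⁻¹ * (starRingEnd ℂ) (ψ 0 0) * σ * ψ 0 0 +
        (σ : ℂ)⁻¹ * (starRingEnd ℂ) (ψ 1 0) * (σ : ℂ)⁻¹ * ψ 1 0)) +
        (σ : ℂ)⁻¹ * (ψ 1 0 * ((σ : ℂ)⁻¹ * (starRingEnd ℂ) (ψ 1 0) * (σ : ℂ)⁻¹) +
        ψ 1 1 * ((σ : ℂ)⁻¹⁻¹ * (starRingEnd ℂ) (ψ 1 1) * (σ : ℂ)⁻¹) -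
        ((σ : ℂ)⁻¹⁻¹ * (starRingEnd ℂ) (ψ 0 1) * σ * ψ 0 1 +
        (σ : ℂ)⁻¹⁻¹ * (starRingEnd ℂ) (ψ 1 1) * (σ : ℂ)⁻¹ * ψ 1 1)) =
        ((σ : ℂ) - (σ : ℂ)⁻¹) * ((σ : ℂ) ^ 2 * (ψ 0 1 * (starRingEnd ℂ) (ψ 0 1)) -
          ((σ : ℂ)⁻¹) ^ 2 * (ψ 1 0 * (starRingEnd ℂ) (ψ 1 0))) := by
      field_simp
      ring
    rw [this]
    simp only [mul_conj]
    norm_cast

/-- the trace term is nonnegative -/
theorem SD.trace_nonneg (h : SD K H P σ) (hH : H.PosDef) (c : Matrix (Fin 2) (Fin 2) ℂ) :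
    0 ≤ (K⁻¹ * cᴴ * H * c).trace.re := by
  obtain ⟨Q, e1, e2, e3, e4, hK', hH', hKi, hHi⟩ := h.forms
  rw [hKi]
  have h1 : (P * Pᴴ * cᴴ * H * c).trace = (Pᴴ * (cᴴ * H * c) * P).trace := by
    rw [Matrix.trace_mul_comm (Pᴴ * (cᴴ * H * c)) P]
    simp only [Matrix.mul_assoc]
  rw [h1]
  have h2 := (hH.posSemidef.conjTranspose_mul_mul_same c).conjTranspose_mul_mul_same P
  have h3 := h2.trace_nonneg
  exact (Complex.le_def.1 h3).1

end point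

theorem num {s t σ a x y c : ℝ} (hs : 0 < s) (hst : s ≤ t) (hσ : 0 < σ) (ha : 0 ≤ a)
    (hx : 0 ≤ x) (hy : 0 ≤ y) (hc : 0 ≤ c) :
    (σ + σ⁻¹ ≤ t / s + s / t →
      s ^ 2 * (a + x + y + c) ≤ t ^ 2 * (a + σ ^ 2 * x + (σ⁻¹) ^ 2 * y + c)) ∧
    (t / s + s / t < σ + σ⁻¹ →
      0 ≤ t ^ 2 * ((σ - σ⁻¹) * (σ ^ 2 * x - (σ⁻¹) ^ 2 * y)) - s ^ 2 * ((σ - σ⁻¹) * (x - y)) ∧
      (t ^ 2 * ((σ - σ⁻¹) * (σ ^ 2 * x - (σ⁻¹) ^ 2 * y)) - s ^ 2 * ((σ - σ⁻¹) * (x - y)) ≤ 0 →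
        s ^ 2 * (a + x + y + c) ≤ t ^ 2 * (a + σ ^ 2 * x + (σ⁻¹) ^ 2 * y + c))) := by
  have ht : 0 < t := hs.trans_le hst
  set ρ := σ⁻¹ with hρ
  have hρ0 : 0 < ρ := inv_pos.2 hσ
  have hσρ : σ * ρ = 1 := mul_inv_cancel₀ hσ.ne'
  have hst2 : s ^ 2 ≤ t ^ 2 := pow_le_pow_left₀ hs.le hst 2
  have key : (σ * s - t) * (σ * t - s) = s * t * σ * ((σ + ρ) - (t / s + s / t)) := by
    have : s * t * σ * ((σ + ρ) - (t / s + s / t)) =
        s * t * σ ^ 2 + s * t * (σ * ρ) - σ * (s * t * (t / s + s / t)) := by ring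
    rw [this, hσρ]
    have h2 : s * t * (t / s + s / t) = t ^ 2 + s ^ 2 := by
      field_simp
    rw [h2]
    ring
  have hpos : 0 < s * t * σ := by positivity
  constructor
  · intro h
    have h1 : (σ * s - t) * (σ * t - s) ≤ 0 := by
      rw [key]
      exact mul_nonpos_of_nonneg_of_nonpos hpos.le (by linarith)
    have h2 : σ * s ≤ t ∧ s ≤ σ * t := by
      by_contra hcon
      rw [not_and_or, not_le, not_le] at hcon
      rcases hcon with h3 | h3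
      · have h4 : σ * t ≤ s := by
          by_contra h5
          push Not at h5
          nlinarith [mul_pos (sub_pos.2 h3) (sub_pos.2 h5)]
        nlinarith [mul_le_mul_of_nonneg_left hst hσ.le]
      · have h4 : t ≤ σ * s := by
          by_contra h5
          push Not at h5
          nlinarith [mul_pos (sub_pos.2 h3) (sub_pos.2 h5)]
        nlinarith [mul_le_mul_of_nonneg_left hst hσ.le]
    have h3 : s ≤ ρ * t := by
      have := mul_le_mul_of_nonneg_left h2.1 hρ0.le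
      have h4 : ρ * (σ * s) = s := by
        rw [← mul_assoc, mul_comm ρ σ, hσρ, one_mul]
      linarith
    have h4 : s ^ 2 ≤ t ^ 2 * σ ^ 2 := by
      have := pow_le_pow_left₀ hs.le h2.2 2
      nlinarith
    have h5 : s ^ 2 ≤ t ^ 2 * ρ ^ 2 := by
      have := pow_le_pow_left₀ hs.le h3 2
      nlinarith
    nlinarith [mul_le_mul_of_nonneg_right h4 hx, mul_le_mul_of_nonneg_right h5 hy,
      mul_le_mul_of_nonneg_right hst2 ha, mul_le_mul_of_nonneg_right hst2 hc]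
  · intro h
    have h1 : 0 < (σ * s - t) * (σ * t - s) := by
      rw [key]
      exact mul_pos hpos (by linarith)
    have huv : 0 < (σ - ρ) * (t ^ 2 * σ ^ 2 - s ^ 2) ∧ 0 < (σ - ρ) * (s ^ 2 - t ^ 2 * ρ ^ 2) := by
      rcases pos_and_pos_or_neg_and_neg_of_mul_pos h1 with ⟨h2, h3⟩ | ⟨h2, h3⟩
      · have h4 : ρ * t < s := by
          have := mul_lt_mul_of_pos_left h2 hρ0
          have h4 : ρ * (σ * s - t) = s - ρ * t := by
            rw [mul_sub, ← mul_assoc, mul_comm ρ σ, hσρ, one_mul]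
          rw [h4, mul_zero] at this
          linarith
        have h5 : ρ < σ := by
          have h6 : ρ * t < σ * t := by
            calc ρ * t < s := h4
              _ < σ * t := by linarith
          exact lt_of_mul_lt_mul_right h6 ht.le
        have h6 : s ^ 2 < (σ * t) ^ 2 := pow_lt_pow_left₀ (by linarith) hs.le two_ne_zero
        have h7 : (ρ * t) ^ 2 < s ^ 2 := pow_lt_pow_left₀ h4 (by positivity) two_ne_zero
        exact ⟨mul_pos (by linarith) (by nlinarith), mul_pos (by linarith) (by nlinarith)⟩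
      · have h4 : s < ρ * t := by
          have := mul_lt_mul_of_pos_left h2 hρ0
          have h4 : ρ * (σ * s - t) = s - ρ * t := by
            rw [mul_sub, ← mul_assoc, mul_comm ρ σ, hσρ, one_mul]
          rw [h4, mul_zero] at this
          linarith
        have h5 : σ < ρ := by
          have h6 : σ * t < ρ * t := by
            calc σ * t < s := by linarith
              _ < ρ * t := h4
          exact lt_of_mul_lt_mul_right h6 ht.le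
        have h6 : (σ * t) ^ 2 < s ^ 2 := pow_lt_pow_left₀ (by linarith) (by positivity) two_ne_zero
        have h7 : s ^ 2 < (ρ * t) ^ 2 := pow_lt_pow_left₀ h4 hs.le two_ne_zero
        exact ⟨mul_pos_of_neg_of_neg (by linarith) (by nlinarith),
          mul_pos_of_neg_of_neg (by linarith) (by nlinarith)⟩
    obtain ⟨hu, hv⟩ := huv
    have hq : t ^ 2 * ((σ - ρ) * (σ ^ 2 * x - ρ ^ 2 * y)) - s ^ 2 * ((σ - ρ) * (x - y)) =
        (σ - ρ) * (t ^ 2 * σ ^ 2 - s ^ 2) * x + (σ - ρ) * (s ^ 2 - t ^ 2 * ρ ^ 2) * y := by ring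
    rw [hq]
    refine ⟨by positivity, fun h2 => ?_⟩
    have hx0 : x = 0 := by
      by_contra hne
      have : 0 < x := lt_of_le_of_ne hx (Ne.symm hne)
      nlinarith [mul_pos hu this, mul_nonneg hv.le hy]
    have hy0 : y = 0 := by
      by_contra hne
      have : 0 < y := lt_of_le_of_ne hy (Ne.symm hne)
      nlinarith [mul_pos hv this, mul_nonneg hu.le hx]
    rw [hx0, hy0]
    nlinarith [mul_le_mul_of_nonneg_right hst2 ha, mul_le_mul_of_nonneg_right hst2 hc]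

/-- The pointwise statement. -/
theorem pointwise {K H : Matrix (Fin 2) (Fin 2) ℂ} (hK : K.PosDef) (hH : H.PosDef)
    (dK : K.det = 1) (dH : H.det = 1) (φ : Matrix (Fin 2) (Fin 2) ℂ) {s t : ℝ} (hs : 0 < s)
    (hst : s ≤ t) :
    (((K⁻¹ * H).trace.re : ℝ) : ℂ) = (K⁻¹ * H).trace ∧
    ((K⁻¹ * H).trace.re ≤ t / s + s / t → s ^ 2 * nrm K φ ≤ t ^ 2 * nrm H φ) ∧
    (t / s + s / t < (K⁻¹ * H).trace.re →
      0 ≤ t ^ 2 * (K⁻¹ * H * com H φ).trace.re - s ^ 2 * (K⁻¹ * H * com K φ).trace.re ∧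
      (t ^ 2 * (K⁻¹ * H * com H φ).trace.re - s ^ 2 * (K⁻¹ * H * com K φ).trace.re ≤ 0 →
        s ^ 2 * nrm K φ ≤ t ^ 2 * nrm H φ)) ∧
    ∀ c : Matrix (Fin 2) (Fin 2) ℂ, 0 ≤ (K⁻¹ * cᴴ * H * c).trace.re := by
  obtain ⟨P, σ, h1, h2, h3, h4⟩ := simul hK hH dK dH
  have hSD : SD K H P σ := ⟨h1, h2, h3, h4⟩
  obtain ⟨a, x, y, c, ha, hx, hy, hc, n1, n2, n3, n4, n5⟩ := hSD.calc φ
  obtain ⟨m1, m2⟩ := num (a := a) (x := x) (y := y) (c := c) hs hst h2 ha hx hy hc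
  have hre : (K⁻¹ * H).trace.re = σ + σ⁻¹ := by rw [n3, ofReal_re]
  refine ⟨by rw [hre, n3], ?_, ?_, hSD.trace_nonneg hH⟩
  · rw [hre, n1, n2]
    exact m1
  · rw [hre, n1, n2, n4, n5]
    exact m2

end Pool.Agent.K1H99.HM
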