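import Pool.Agent.K1H99.HM.Wirt
import Pool.Agent.K1H99.HM.Alg

/-! The comparison of the harmonic metrics. -/

set_option autoImplicit false

namespace Pool.Agent.K1H99.HM

open Complex Topology Module Matrix
open Pool.Agent.H234R3 (dd)
open scoped ComplexOrder

theorem bracket {Ki Hi H K1 K2 H1 H2 : M2} (hKs : Kiᴴ = Ki) (hHs : Hiᴴ = Hi) (hi : Hi * H = 1)
    (hi' : H * Hi = 1) (hK : K1ᴴ = K2) (hH : H1ᴴ = H2) :
    (Ki * K1 * Ki * K2 * Ki * H - Ki * K1 * Ki * H2 - Ki * K2 * Ki * H1 + Ki * H2 * Hi * H1).trace =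
      (Ki * (Ki * K1 - Hi * H1)ᴴ * H * (Ki * K1 - Hi * H1)).trace := by
  have e1 : (Ki * K1 - Hi * H1)ᴴ = K2 * Ki - H2 * Hi := by
    rw [conjTranspose_sub, conjTranspose_mul, conjTranspose_mul, hKs, hHs, hK, hH]
  have r1 : ∀ X : M2, Hi * (H * X) = X := fun X => by rw [← Matrix.mul_assoc, hi, Matrix.one_mul]
  have r2 : ∀ X : M2, H * (Hi * X) = X := fun X => by rw [← Matrix.mul_assoc, hi', Matrix.one_mul]
  have e2 : Ki * (K2 * Ki - H2 * Hi) * H * (Ki * K1 - Hi * H1) =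
      (Ki * K2 * Ki * H) * (Ki * K1) - Ki * K2 * Ki * H1 - (Ki * H2) * (Ki * K1) +
        Ki * H2 * Hi * H1 := by
    simp only [Matrix.mul_sub, Matrix.sub_mul, Matrix.mul_assoc, r1, r2]
    abel
  rw [e1, e2]
  simp only [trace_add, trace_sub]
  rw [Matrix.trace_mul_comm (Ki * K2 * Ki * H) (Ki * K1),
    Matrix.trace_mul_comm (Ki * H2) (Ki * K1)]
  simp only [Matrix.mul_assoc]
  ring

/-- the function whose maximum is studied -/
noncomputable def TT (K H : ℂ → M2) (z : ℂ) : ℝ := ((K z)⁻¹ * H z).trace.re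

section core

variable {D : Set ℂ} {H K φ : ℂ → M2} {s t : ℝ}

theorem TT_C2 (hD : IsOpen D) (hK2 : ∀ z ∈ D, MC2 K z) (hH2 : ∀ z ∈ D, MC2 H z)
    (dK : ∀ z ∈ D, (K z).det = 1) {z : ℂ} (hz : z ∈ D) : ContDiffAt ℝ 2 (TT K H) z := by
  have h1 : ∀ᶠ w in 𝓝 z, (K w).det = 1 := by
    filter_upwards [hD.mem_nhds hz] with w hw using dK w hw
  have h2 := ((hK2 z hz).inv h1).mul (hH2 z hz)
  have h3 : ContDiffAt ℝ 2 (fun w => ((K w)⁻¹ * H w) 0 0 + ((K w)⁻¹ * H w) 1 1) z :=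
    (h2 0 0).add (h2 1 1)
  have h4 : TT K H = fun w => reCLM (((K w)⁻¹ * H w) 0 0 + ((K w)⁻¹ * H w) 1 1) := by
    funext w
    simp [TT, Matrix.trace_fin_two]
  rw [h4]
  exact reCLM.contDiff.contDiffAt.comp z h3

/-- The Laplacian of the trace. -/
theorem lap_TT (hD : IsOpen D) (hs : 0 < s) (hst : s ≤ t) (hK2 : ∀ z ∈ D, MC2 K z)
    (hH2 : ∀ z ∈ D, MC2 H z) (pK : ∀ z ∈ D, (K z).PosDef) (pH : ∀ z ∈ D, (H z).PosDef)
    (dK : ∀ z ∈ D, (K z).det = 1) (dH : ∀ z ∈ D, (H z).det = 1)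
    (eK : ∀ z ∈ D, curv K z = ((s : ℂ) ^ 2) • com (K z) (φ z))
    (eH : ∀ z ∈ D, curv H z = ((t : ℂ) ^ 2) • com (H z) (φ z)) {z : ℂ} (hz : z ∈ D) :
    ∃ r : ℝ, 0 ≤ r ∧ dd (TT K H) z 1 + dd (TT K H) z I =
      4 * (t ^ 2 * ((K z)⁻¹ * H z * com (H z) (φ z)).trace.re -
        s ^ 2 * ((K z)⁻¹ * H z * com (K z) (φ z)).trace.re + r) := by
  have hDz := hD.mem_nhds hz
  have k1 : ∀ᶠ w in 𝓝 z, (K w).det = 1 := by
    filter_upwards [hDz] with w hw using dK w hw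
  have h1 : ∀ᶠ w in 𝓝 z, (H w).det = 1 := by
    filter_upwards [hDz] with w hw using dH w hw
  have hherm : ∀ᶠ w in 𝓝 z, (H w).IsHermitian := by
    filter_upwards [hDz] with w hw using (pH w hw).isHermitian
  have kherm : ∀ᶠ w in 𝓝 z, (K w).IsHermitian := by
    filter_upwards [hDz] with w hw using (pK w hw).isHermitian
  obtain ⟨-, -, -, hr⟩ := pointwise (pK z hz) (pH z hz) (dK z hz) (dH z hz) (φ z) hs hst
  refine ⟨_, hr ((K z)⁻¹ * Dz K z - (H z)⁻¹ * Dz H z), ?_⟩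
  rw [lap_eq (TT_C2 hD hK2 hH2 dK hz)]
  congr 1
  -- the complex trace
  let F : ℂ → M2 := fun w => (K w)⁻¹ * H w
  have hF2 : ∀ w ∈ D, MC2 F w := by
    intro w hw
    have h1 : ∀ᶠ u in 𝓝 w, (K u).det = 1 := by
      filter_upwards [hD.mem_nhds hw] with u hu using dK u hu
    exact ((hK2 w hw).inv h1).mul (hH2 w hw)
  have e1 : (fun w => ((TT K H w : ℝ) : ℂ)) =ᶠ[𝓝 z] fun w => F w 0 0 + F w 1 1 := by
    filter_upwards [hDz] with w hw
    have := (pointwise (pK w hw) (pH w hw) (dK w hw) (dH w hw) (φ w) hs hst).1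
    change (((((K w)⁻¹ * H w).trace.re : ℝ)) : ℂ) = _
    rw [this, Matrix.trace_fin_two]
  have e2 : dz (fun w => ((TT K H w : ℝ) : ℂ)) =ᶠ[𝓝 z] fun w => Dz F w 0 0 + Dz F w 1 1 := by
    filter_upwards [e1.eventually_nhds, hDz] with w hw hwD
    rw [dz_congr hw, dz_add ((hF2 w hwD).md 0 0) ((hF2 w hwD).md 1 1)]
    rfl
  have e3 : dzb (dz (fun w => ((TT K H w : ℝ) : ℂ))) z = (Dzb (Dz F) z).trace := by
    rw [dzb_congr e2, dzb_add ((hF2 z hz).mdz 0 0) ((hF2 z hz).mdz 1 1), Matrix.trace_fin_two]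
    rfl
  rw [e3]
  have e4 := second (hH2 z hz) (hK2 z hz) h1 k1
  change Dzb (Dz F) z = _ at e4
  rw [e4, trace_add]
  have hKs : ((K z)⁻¹)ᴴ = (K z)⁻¹ := by
    rw [conjTranspose_nonsing_inv, (pK z hz).isHermitian.eq]
  have hHs : ((H z)⁻¹)ᴴ = (H z)⁻¹ := by
    rw [conjTranspose_nonsing_inv, (pH z hz).isHermitian.eq]
  rw [bracket hKs hHs (inv_mul_one (dH z hz)) (mul_inv_one (dH z hz))
    (Dz_herm (hK2 z hz).md kherm) (Dz_herm (hH2 z hz).md hherm)]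
  rw [trace_add, trace_neg, eK z hz, eH z hz, add_re, add_re, neg_re]
  have e5 : (((s : ℂ) ^ 2) • com (K z) (φ z) * (K z)⁻¹ * H z).trace.re =
      s ^ 2 * ((K z)⁻¹ * H z * com (K z) (φ z)).trace.re := by
    rw [Matrix.mul_assoc, Matrix.trace_mul_comm, Matrix.mul_smul, trace_smul, smul_eq_mul]
    have : ((s : ℂ) ^ 2) = ((s ^ 2 : ℝ) : ℂ) := by push_cast; rfl
    rw [this, re_ofReal_mul]
  have e6 : ((K z)⁻¹ * H z * (((t : ℂ) ^ 2) • com (H z) (φ z))).trace.re =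
      t ^ 2 * ((K z)⁻¹ * H z * com (H z) (φ z)).trace.re := by
    rw [Matrix.mul_smul, trace_smul, smul_eq_mul]
    have : ((t : ℂ) ^ 2) = ((t ^ 2 : ℝ) : ℂ) := by push_cast; rfl
    rw [this, re_ofReal_mul]
  rw [e5, e6]
  ring

/-- **The comparison theorem.** -/
theorem core (hD : IsOpen D) (hDc : IsPreconnected D) (hs : 0 < s) (hst : s ≤ t)
    (hK2 : ∀ z ∈ D, MC2 K z)
    (hH2 : ∀ z ∈ D, MC2 H z) (pK : ∀ z ∈ D, (K z).PosDef) (pH : ∀ z ∈ D, (H z).PosDef)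
    (dK : ∀ z ∈ D, (K z).det = 1) (dH : ∀ z ∈ D, (H z).det = 1)
    (eK : ∀ z ∈ D, curv K z = ((s : ℂ) ^ 2) • com (K z) (φ z))
    (eH : ∀ z ∈ D, curv H z = ((t : ℂ) ^ 2) • com (H z) (φ z))
    {z0 : ℂ} (hz0 : z0 ∈ D) (hmax : ∀ z ∈ D, TT K H z ≤ TT K H z0) :
    ∀ z ∈ D, s ^ 2 * nrm (K z) (φ z) ≤ t ^ 2 * nrm (H z) (φ z) := by
  intro z hz
  obtain ⟨-, p2, p3, -⟩ := pointwise (pK z hz) (pH z hz) (dK z hz) (dH z hz) (φ z) hs hst
  by_cases hle : TT K H z0 ≤ t / s + s / t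
  · exact p2 ((hmax z hz).trans hle)
  push Not at hle
  -- the function is constant
  have hloc : ∀ w ∈ D, TT K H w = TT K H z0 → ∀ᶠ u in 𝓝 w, TT K H u = TT K H z0 := by
    intro w hw hwM
    have hC := TT_C2 hD hK2 hH2 dK hw
    have h1 := smp_C hC (by
      have hcont : ∀ᶠ u in 𝓝 w, t / s + s / t < TT K H u := by
        refine hC.continuousAt.eventually (lt_mem_nhds ?_)
        rw [hwM]
        exact hle
      filter_upwards [hcont, hD.mem_nhds hw] with u hu huD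
      obtain ⟨r, hr, he⟩ := lap_TT (φ := φ) hD hs hst hK2 hH2 pK pH dK dH eK eH huD
      rw [he]
      obtain ⟨-, -, q3, -⟩ := pointwise (pK u huD) (pH u huD) (dK u huD) (dH u huD) (φ u) hs hst
      have := (q3 hu).1
      linarith) (by
      filter_upwards [hD.mem_nhds hw] with u hu
      rw [hwM]
      exact hmax u hu)
    filter_upwards [h1] with u hu
    rw [hu, hwM]
  have hconst : D ⊆ {w | ∀ᶠ u in 𝓝 w, TT K H u = TT K H z0} := by
    refine hDc.subset_left_of_subset_union (v := D ∩ {w | TT K H w < TT K H z0}) ?_ ?_ ?_ ?_ ?_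
    · rw [isOpen_iff_mem_nhds]
      intro w hw
      exact (eventually_eventually_nhds.2 hw : ∀ᶠ y in 𝓝 w, ∀ᶠ u in 𝓝 y, TT K H u = TT K H z0)
    · rw [isOpen_iff_mem_nhds]
      rintro w ⟨hw, hlt⟩
      have hC := (TT_C2 hD hK2 hH2 dK hw).continuousAt
      filter_upwards [hD.mem_nhds hw, hC.eventually (gt_mem_nhds hlt)] with u h1 h2
      exact ⟨h1, h2⟩
    · rw [Set.disjoint_left]
      rintro w hw ⟨-, hlt⟩
      have hw' : ∀ᶠ u in 𝓝 w, TT K H u = TT K H z0 := hw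
      exact absurd hw'.self_of_nhds (ne_of_lt hlt)
    · intro w hw
      rcases (hmax w hw).lt_or_eq with h | h
      · exact Or.inr ⟨hw, h⟩
      · exact Or.inl (hloc w hw h)
    · exact ⟨z0, hz0, hloc z0 hz0 rfl⟩
  have hev : ∀ᶠ u in 𝓝 z, TT K H u = TT K H z0 := hconst hz
  have hTz : TT K H z = TT K H z0 := hev.self_of_nhds
  have hgt : t / s + s / t < ((K z)⁻¹ * H z).trace.re := by
    change _ < TT K H z
    rw [hTz]
    exact hle
  refine (p3 hgt).2 ?_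
  obtain ⟨r, hr, he⟩ := lap_TT (φ := φ) hD hs hst hK2 hH2 pK pH dK dH eK eH hz
  have hdd : dd (TT K H) z 1 + dd (TT K H) z I = 0 := by
    have hC := TT_C2 hD hK2 hH2 dK hz
    rw [lap_eq hC]
    have hzero : dz (fun w => ((TT K H w : ℝ) : ℂ)) =ᶠ[𝓝 z] fun _ => 0 := by
      filter_upwards [eventually_eventually_nhds.2 hev] with w hw
      have : (fun u => ((TT K H u : ℝ) : ℂ)) =ᶠ[𝓝 w] fun _ => ((TT K H z0 : ℝ) : ℂ) := by
        filter_upwards [hw] with u hu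
        rw [hu]
      rw [dz_congr this, dz_const]
    rw [dzb_congr hzero, dzb_const]
    simp
  rw [hdd] at he
  linarith

end core

end Pool.Agent.K1H99.HM
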