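import Pool.Agent.K1H99.HM.Core

/-!
# Rank two Higgs bundles on closed Riemann surfaces

A closed Riemann surface is given as a quotient `Γ \ D` of a connected open set `D ⊆ ℂ` (the upper
half plane or the disk in genus at least two), with a compact set which meets all orbits. A Higgs
bundle of rank two with trivial determinant is given on `D`, where the bundle is trivial, by a
holomorphic automorphy factor `j` with values in `SL(2, ℂ)` and a matrix `φ`.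
-/

set_option autoImplicit false

namespace Pool.Agent.K1H99.HM

open Complex Topology Matrix
open scoped ComplexOrder

/-- A closed Riemann surface `Γ \ D`. -/
structure Surface (D : Set ℂ) (Γ : Type) [Group Γ] where
  isOpen : IsOpen D
  connected : IsPreconnected D
  /-- the action of the group -/
  act : Γ → ℂ → ℂ
  hol : ∀ g, DifferentiableOn ℂ (act g) D
  maps : ∀ g, ∀ z ∈ D, act g z ∈ D
  one : ∀ z ∈ D, act 1 z = z
  mul : ∀ g h, ∀ z ∈ D, act (g * h) z = act g (act h z)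
  compact : ∃ C ⊆ D, IsCompact C ∧ ∀ z ∈ D, ∃ g, act g z ∈ C

variable {D : Set ℂ} {Γ : Type} [Group Γ]

/-- An `SL(2, ℂ)`-Higgs bundle on the surface: a holomorphic bundle, given by the automorphy factor
`j`, and the Higgs field `φ(z) dz`. -/
structure Higgs (X : Surface D Γ) where
  /-- the automorphy factor -/
  j : Γ → ℂ → M2
  j_hol : ∀ g a b, DifferentiableOn ℂ (fun z => j g z a b) D
  j_det : ∀ g, ∀ z ∈ D, (j g z).det = 1
  j_mul : ∀ g h, ∀ z ∈ D, j (g * h) z = j g (X.act h z) * j h z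
  /-- the Higgs field -/
  φ : ℂ → M2
  φ_hol : ∀ a b, DifferentiableOn ℂ (fun z => φ z a b) D
  φ_trace : ∀ z ∈ D, (φ z).trace = 0
  φ_equiv : ∀ g, ∀ z ∈ D, deriv (X.act g) z • φ (X.act g z) = j g z * φ z * (j g z)⁻¹

/-- The Higgs bundle `t · (E, φ) = (E, t φ)`. -/
def Higgs.flow {X : Surface D Γ} (E : Higgs X) (t : ℂ) : Higgs X where
  j := E.j
  j_hol := E.j_hol
  j_det := E.j_det
  j_mul := E.j_mul
  φ z := t • E.φ z
  φ_hol a b := (E.φ_hol a b).const_mul t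
  φ_trace z hz := by rw [trace_smul, E.φ_trace z hz, smul_zero]
  φ_equiv g z hz := by
    rw [smul_comm, E.φ_equiv g z hz, Matrix.mul_smul, Matrix.smul_mul]

/-- `H` is a harmonic metric of the Higgs bundle: a positive definite Hermitian metric on the bundle
(`|v|² = v* H v`), with trivial determinant, that solves Hitchin's equation
`∂̄ (H⁻¹ ∂H) = [φ, φ*]`, where `φ* = H⁻¹ φᴴ H` is the adjoint with respect to `H`. -/
structure IsHarmonic {X : Surface D Γ} (E : Higgs X) (H : ℂ → M2) : Prop where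
  smooth : ∀ a b, ContDiffOn ℝ 2 (fun z => H z a b) D
  pos : ∀ z ∈ D, (H z).PosDef
  det : ∀ z ∈ D, (H z).det = 1
  equiv : ∀ g, ∀ z ∈ D, (E.j g z)ᴴ * H (X.act g z) * E.j g z = H z
  hitchin : ∀ z ∈ D, Dzb (fun w => (H w)⁻¹ * Dz H w) z =
    E.φ z * ((H z)⁻¹ * (E.φ z)ᴴ * H z) - ((H z)⁻¹ * (E.φ z)ᴴ * H z) * E.φ z

/-- `Ψ` is a frame of parallel sections for the flat connection `∇_H + φ + φ*`: its columns `v` solve
`∂v + (H⁻¹ ∂H + φ) v = 0` and `∂̄v + φ* v = 0`. -/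
structure IsParallel {X : Surface D Γ} (E : Higgs X) (H Ψ : ℂ → M2) : Prop where
  diff : ∀ z ∈ D, ∀ a b, DifferentiableAt ℝ (fun w => Ψ w a b) z
  det : ∀ z ∈ D, (Ψ z).det = 1
  dz : ∀ z ∈ D, Dz Ψ z = -(((H z)⁻¹ * Dz H z + E.φ z) * Ψ z)
  dzb : ∀ z ∈ D, Dzb Ψ z = -(((H z)⁻¹ * (E.φ z)ᴴ * H z) * Ψ z)

/-- The harmonic metric in a parallel frame: this is the equivariant harmonic map from `D` to the
space `SL(2, ℂ) / SU(2)` of positive definite Hermitian matrices of determinant one. -/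
noncomputable def harmonicMap (H Ψ : ℂ → M2) (z : ℂ) : M2 := (Ψ z)ᴴ * H z * Ψ z

/-- derivative in the direction `a` -/
noncomputable def dir (f : ℂ → M2) (z a : ℂ) : M2 :=
  Matrix.of fun i j => fderiv ℝ (fun w => f w i j) z a

/-- The energy density `½ |df|²` of a map `f` to the positive definite Hermitian matrices, with the
invariant metric `tr (P⁻¹ A P⁻¹ B)` on the target, and the conformal metric `lam(z) |dz|²` on `D`. -/
noncomputable def energy (lam : ℂ → ℝ) (f : ℂ → M2) (z : ℂ) : ℝ :=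
  (((f z)⁻¹ * dir f z 1 * ((f z)⁻¹ * dir f z 1)).trace.re +
    ((f z)⁻¹ * dir f z I * ((f z)⁻¹ * dir f z I)).trace.re) / (2 * lam z)

/-! ### Proofs -/

theorem dir_one (f : ℂ → M2) (z : ℂ) : dir f z 1 = Dz f z + Dzb f z := by
  ext i j
  simp only [dir, Dz, Dzb, dz, dzb, Matrix.of_apply, Matrix.add_apply]
  ring

theorem dir_I (f : ℂ → M2) (z : ℂ) : dir f z I = I • (Dz f z - Dzb f z) := by
  ext i j
  simp only [dir, Dz, Dzb, dz, dzb, Matrix.of_apply, Matrix.sub_apply, Matrix.smul_apply,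
    smul_eq_mul]
  have : ∀ a b : ℂ, b = I * ((a - I * b) / 2 - (a + I * b) / 2) := by
    intro a b
    have h : I * ((a - I * b) / 2 - (a + I * b) / 2) = -(I * I) * b := by ring
    rw [h, I_mul_I]
    ring
  exact this _ _

theorem energy_eq' (lam : ℂ → ℝ) (f : ℂ → M2) (z : ℂ) :
    energy lam f z = 2 * ((f z)⁻¹ * Dz f z * ((f z)⁻¹ * Dzb f z)).trace.re / lam z := by
  unfold energy
  rw [dir_one, dir_I]
  set A := (f z)⁻¹ * Dz f z with hA
  set B := (f z)⁻¹ * Dzb f z with hB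
  have e1 : (f z)⁻¹ * (Dz f z + Dzb f z) = A + B := by rw [Matrix.mul_add]
  have e2 : (f z)⁻¹ * (I • (Dz f z - Dzb f z)) = I • (A - B) := by
    rw [Matrix.mul_smul, Matrix.mul_sub]
  rw [e1, e2]
  have e3 : (I • (A - B)) * (I • (A - B)) = -((A - B) * (A - B)) := by
    rw [Matrix.smul_mul, Matrix.mul_smul, smul_smul, I_mul_I, neg_one_smul]
  rw [e3, trace_neg]
  have e4 : ((A + B) * (A + B)).trace - ((A - B) * (A - B)).trace = 4 * (A * B).trace := by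
    rw [← trace_sub]
    have : (A + B) * (A + B) - (A - B) * (A - B) = (2 : ℂ) • (A * B) + (2 : ℂ) • (B * A) := by
      rw [two_smul, two_smul]
      noncomm_ring
    rw [this, trace_add, trace_smul, trace_smul, Matrix.trace_mul_comm B A, smul_eq_mul]
    ring
  have e5 : ((A + B) * (A + B)).trace.re + (-((A - B) * (A - B)).trace).re =
      4 * (A * B).trace.re := by
    rw [← add_re, ← sub_eq_add_neg, e4]
    have : (4 : ℂ) = ((4 : ℝ) : ℂ) := by norm_num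
    rw [this, re_ofReal_mul]
  rw [e5]
  have : ∀ x y : ℝ, 4 * x / (2 * y) = 2 * x / y := by
    intro x y
    rw [show (4 : ℝ) * x = 2 * (2 * x) by ring, mul_div_mul_left _ _ two_ne_zero]
  exact this _ _

theorem Dz_conj {F : ℂ → M2} {z : ℂ} (hF : MD F z) :
    Dz (fun w => (F w)ᴴ) z = (Dzb F z)ᴴ := by
  ext i j
  exact dz_star (hF j i)

theorem Dzb_conj {F : ℂ → M2} {z : ℂ} (hF : MD F z) :
    Dzb (fun w => (F w)ᴴ) z = (Dz F z)ᴴ := by
  ext i j
  exact dzb_star (hF j i)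

theorem MD.conj {F : ℂ → M2} {z : ℂ} (hF : MD F z) : MD (fun w => (F w)ᴴ) z := by
  intro i j
  exact (conjCLE : ℂ →L[ℝ] ℂ).differentiableAt.comp z (hF j i)

theorem IsHarmonic.c2 {X : Surface D Γ} {E : Higgs X} {H : ℂ → M2} (h : IsHarmonic E H) {z : ℂ}
    (hz : z ∈ D) : MC2 H z := fun a b => (h.smooth a b).contDiffAt (X.isOpen.mem_nhds hz)

/-- The energy density of the harmonic map is `8 tr (φ φ*) / lam`. -/
theorem energy_eq {X : Surface D Γ} {E : Higgs X} {H Ψ : ℂ → M2} (h : IsHarmonic E H)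
    (hP : IsParallel E H Ψ) (lam : ℂ → ℝ) {z : ℂ} (hz : z ∈ D) :
    energy lam (harmonicMap H Ψ) z = 8 * nrm (H z) (E.φ z) / lam z := by
  rw [energy_eq']
  have hH : MD H z := (h.c2 hz).md
  have hΨ : MD Ψ z := hP.diff z hz
  have herm : ∀ᶠ w in 𝓝 z, (H w).IsHermitian := by
    filter_upwards [X.isOpen.mem_nhds hz] with w hw using (h.pos w hw).isHermitian
  have hHz : (H z)ᴴ = H z := (h.pos z hz).isHermitian.eq
  have hHi : ((H z)⁻¹)ᴴ = (H z)⁻¹ := by rw [conjTranspose_nonsing_inv, hHz]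
  have hDh := Dz_herm hH herm
  have i1 := inv_mul_one (h.det z hz)
  have i2 := mul_inv_one (h.det z hz)
  have i3 := inv_mul_one (hP.det z hz)
  have i4 := mul_inv_one (hP.det z hz)
  have dPs : ((Ψ z)ᴴ).det = 1 := by rw [det_conjTranspose, hP.det z hz, star_one]
  have i5 := inv_mul_one dPs
  have i6 := mul_inv_one dPs
  have r1 : ∀ Y : M2, (H z)⁻¹ * (H z * Y) = Y := fun Y => by
    rw [← Matrix.mul_assoc, i1, Matrix.one_mul]
  have r2 : ∀ Y : M2, H z * ((H z)⁻¹ * Y) = Y := fun Y => by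
    rw [← Matrix.mul_assoc, i2, Matrix.one_mul]
  have r3 : ∀ Y : M2, Ψ z * ((Ψ z)⁻¹ * Y) = Y := fun Y => by
    rw [← Matrix.mul_assoc, i4, Matrix.one_mul]
  have r5 : ∀ Y : M2, ((Ψ z)ᴴ)⁻¹ * ((Ψ z)ᴴ * Y) = Y := fun Y => by
    rw [← Matrix.mul_assoc, i5, Matrix.one_mul]
  have hinv : (harmonicMap H Ψ z)⁻¹ = (Ψ z)⁻¹ * (H z)⁻¹ * ((Ψ z)ᴴ)⁻¹ := by
    unfold harmonicMap
    rw [Matrix.mul_inv_rev, Matrix.mul_inv_rev, Matrix.mul_assoc]
  have eDz : Dz (harmonicMap H Ψ) z = -((2 : ℂ) • ((Ψ z)ᴴ * H z * E.φ z * Ψ z)) := by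
    unfold harmonicMap
    rw [Dz_mul (hΨ.conj.mul hH) hΨ, Dz_mul hΨ.conj hH, Dz_conj hΨ, hP.dz z hz, hP.dzb z hz]
    simp only [conjTranspose_neg, conjTranspose_mul, conjTranspose_conjTranspose, hHz, hHi,
      Matrix.neg_mul, Matrix.mul_neg, Matrix.add_mul, Matrix.mul_add, Matrix.mul_assoc, r2, i1,
      two_smul, r1, Matrix.one_mul]
    abel
  have eDzb : Dzb (harmonicMap H Ψ) z =
      -((2 : ℂ) • ((Ψ z)ᴴ * H z * ((H z)⁻¹ * (E.φ z)ᴴ * H z) * Ψ z)) := by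
    unfold harmonicMap
    rw [Dzb_mul (hΨ.conj.mul hH) hΨ, Dzb_mul hΨ.conj hH, Dzb_conj hΨ, hP.dz z hz, hP.dzb z hz]
    simp only [conjTranspose_neg, conjTranspose_mul, conjTranspose_add, hHz, hHi, hDh,
      Matrix.neg_mul, Matrix.mul_neg, Matrix.add_mul, Matrix.mul_add, Matrix.mul_assoc, r2, i1,
      two_smul, r1, Matrix.one_mul]
    abel
  have eA : (harmonicMap H Ψ z)⁻¹ * Dz (harmonicMap H Ψ) z =
      -((2 : ℂ) • ((Ψ z)⁻¹ * E.φ z * Ψ z)) := by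
    rw [hinv, eDz]
    simp only [Matrix.mul_neg, Matrix.mul_smul, Matrix.mul_assoc, r5, r1]
  have eB : (harmonicMap H Ψ z)⁻¹ * Dzb (harmonicMap H Ψ) z =
      -((2 : ℂ) • ((Ψ z)⁻¹ * adj (H z) (E.φ z) * Ψ z)) := by
    rw [hinv, eDzb]
    unfold adj
    simp only [Matrix.mul_neg, Matrix.mul_smul, Matrix.mul_assoc, r5, r1]
  rw [eA, eB]
  have eC : -((2 : ℂ) • ((Ψ z)⁻¹ * E.φ z * Ψ z)) * -((2 : ℂ) • ((Ψ z)⁻¹ * adj (H z) (E.φ z) * Ψ z)) =
      (4 : ℂ) • ((Ψ z)⁻¹ * (E.φ z * adj (H z) (E.φ z)) * Ψ z) := by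
    rw [Matrix.neg_mul, Matrix.mul_neg, neg_neg, Matrix.smul_mul, Matrix.mul_smul, smul_smul]
    congr 1
    · norm_num
    · simp only [Matrix.mul_assoc, r3]
  rw [eC, trace_smul, trace_conj i4, smul_eq_mul]
  have : (4 : ℂ) = ((4 : ℝ) : ℂ) := by norm_num
  rw [this, re_ofReal_mul]
  unfold nrm
  ring

theorem nrm_smul (H φ : M2) (t : ℂ) : nrm H (t • φ) = ‖t‖ ^ 2 * nrm H φ := by
  unfold nrm adj
  rw [conjTranspose_smul, Matrix.mul_smul, Matrix.smul_mul, Matrix.smul_mul, Matrix.mul_smul,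
    smul_smul, trace_smul, smul_eq_mul, RCLike.star_def, mul_conj, normSq_eq_norm_sq,
    re_ofReal_mul]

theorem com_smul (H φ : M2) (t : ℂ) : com H (t • φ) = ((‖t‖ : ℂ) ^ 2) • com H φ := by
  have h : t * (starRingEnd ℂ) t = (‖t‖ : ℂ) ^ 2 := by
    rw [mul_conj, normSq_eq_norm_sq]
    push_cast
    rfl
  have h' : (starRingEnd ℂ) t * t = (‖t‖ : ℂ) ^ 2 := by rw [mul_comm, h]
  unfold com adj
  rw [conjTranspose_smul, Matrix.mul_smul, Matrix.smul_mul, Matrix.smul_mul, Matrix.mul_smul,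
    Matrix.smul_mul, Matrix.mul_smul, smul_smul, smul_smul, RCLike.star_def, smul_sub, h, h']

/-- **Monotonicity of the energy density, rank two.** -/
theorem main {X : Surface D Γ} (E : Higgs X) (lam : ℂ → ℝ) (hlam : ∀ z ∈ D, 0 < lam z)
    {t₁ t₂ : ℂ} (h1 : t₁ ≠ 0) (h12 : ‖t₁‖ ≤ ‖t₂‖) {H₁ H₂ Ψ₁ Ψ₂ : ℂ → M2}
    (hH₁ : IsHarmonic (E.flow t₁) H₁) (hH₂ : IsHarmonic (E.flow t₂) H₂)
    (hΨ₁ : IsParallel (E.flow t₁) H₁ Ψ₁) (hΨ₂ : IsParallel (E.flow t₂) H₂ Ψ₂) {z : ℂ}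
    (hz : z ∈ D) :
    energy lam (harmonicMap H₁ Ψ₁) z ≤ energy lam (harmonicMap H₂ Ψ₂) z := by
  rw [energy_eq hH₁ hΨ₁ lam hz, energy_eq hH₂ hΨ₂ lam hz]
  refine div_le_div_of_nonneg_right ?_ (hlam z hz).le
  refine mul_le_mul_of_nonneg_left ?_ (by norm_num)
  change nrm (H₁ z) (t₁ • E.φ z) ≤ nrm (H₂ z) (t₂ • E.φ z)
  rw [nrm_smul, nrm_smul]
  -- the maximum
  have hinv : ∀ g, ∀ w ∈ D, TT H₁ H₂ (X.act g w) = TT H₁ H₂ w := by
    intro g w hw
    have a1 := hH₁.equiv g w hw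
    have a2 := hH₂.equiv g w hw
    change (E.j g w)ᴴ * H₁ (X.act g w) * E.j g w = H₁ w at a1
    change (E.j g w)ᴴ * H₂ (X.act g w) * E.j g w = H₂ w at a2
    have dj := E.j_det g w hw
    have djs : ((E.j g w)ᴴ).det = 1 := by rw [det_conjTranspose, dj, star_one]
    unfold TT
    rw [← a1, ← a2, Matrix.mul_inv_rev, Matrix.mul_inv_rev]
    have e : (E.j g w)⁻¹ * ((H₁ (X.act g w))⁻¹ * ((E.j g w)ᴴ)⁻¹) *
        ((E.j g w)ᴴ * H₂ (X.act g w) * E.j g w) =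
        (E.j g w)⁻¹ * ((H₁ (X.act g w))⁻¹ * H₂ (X.act g w)) * E.j g w := by
      have r : ∀ Y : M2, ((E.j g w)ᴴ)⁻¹ * ((E.j g w)ᴴ * Y) = Y := fun Y => by
        rw [← Matrix.mul_assoc, inv_mul_one djs, Matrix.one_mul]
      simp only [Matrix.mul_assoc, r]
    rw [e, trace_conj (mul_inv_one dj)]
  obtain ⟨C, hCD, hC, hcov⟩ := X.compact
  have hcont : ContinuousOn (TT H₁ H₂) C := fun w hw =>
    ((TT_C2 X.isOpen (fun _ h => hH₁.c2 h) (fun _ h => hH₂.c2 h) hH₁.det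
      (hCD hw)).continuousAt).continuousWithinAt
  have hne : C.Nonempty := by
    obtain ⟨g, hg⟩ := hcov z hz
    exact ⟨_, hg⟩
  obtain ⟨z0, hz0, hmax⟩ := hC.exists_isMaxOn hne hcont
  refine core (K := H₁) (H := H₂) (φ := E.φ) X.isOpen X.connected (norm_pos_iff.2 h1) h12
    (fun _ h => hH₁.c2 h) (fun _ h => hH₂.c2 h) hH₁.pos hH₂.pos hH₁.det hH₂.det ?_ ?_ (hCD hz0) ?_
    z hz
  · intro w hw
    rw [← com_smul]
    exact hH₁.hitchin w hw
  · intro w hw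
    rw [← com_smul]
    exact hH₂.hitchin w hw
  · intro w hw
    obtain ⟨g, hg⟩ := hcov w hw
    rw [← hinv g w hw]
    exact hmax hg

end Pool.Agent.K1H99.HM
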