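import Pool.Agent.H234R3.Hopf

/-! The local strong maximum principle for functions on open subsets of `ℂ`. -/

set_option autoImplicit false

namespace Pool.Agent.K1H99.HM

open Complex Topology Module
open Pool.Agent.H234R3

theorem sub_of {U : ℂ → ℝ} {y : ℂ} (h : 0 ≤ dd U y 1 + dd U y I) :
    SubAt (fun _ a b => (innerSL ℝ : ℂ →L[ℝ] ℂ →L[ℝ] ℝ) a b) U y := by
  have h2 : finrank ℝ ℂ = 2 := Complex.finrank_real_complex
  refine ⟨fun _ _ => 0, Complex.basisOneI.reindex (finCongr h2.symm), ?_, ?_, ?_⟩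
  · intro a b c
    simp [koszul, der]
  · intro i j
    have key : ∀ i j : Fin 2, (innerSL ℝ : ℂ →L[ℝ] ℂ →L[ℝ] ℝ) (Complex.basisOneI i)
        (Complex.basisOneI j) = if i = j then 1 else 0 := by
      intro i j
      fin_cases i <;> fin_cases j <;> simp [Complex.coe_basisOneI]
    simp only [Basis.reindex_apply]
    rw [key]
    simp
  · rw [← (finCongr h2.symm).sum_comp]
    simp only [Basis.reindex_apply, Equiv.symm_apply_apply, Fin.sum_univ_two]
    simpa [der, Complex.coe_basisOneI] using h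

/-- The local strong maximum principle. -/
theorem smp_C {U : ℂ → ℝ} {y0 : ℂ} (hU : ContDiffAt ℝ 2 U y0)
    (hsub : ∀ᶠ y in 𝓝 y0, 0 ≤ dd U y 1 + dd U y I) (hmax : ∀ᶠ y in 𝓝 y0, U y ≤ U y0) :
    ∀ᶠ y in 𝓝 y0, U y = U y0 := by
  refine local_smp (G := fun _ => (innerSL ℝ : ℂ →L[ℝ] ℂ →L[ℝ] ℝ)) contDiffAt_const ?_ hU
    (hsub.mono fun y hy => sub_of hy) hmax
  intro v hv
  have h : (innerSL ℝ : ℂ →L[ℝ] ℂ →L[ℝ] ℝ) v v = ‖v‖ ^ 2 := real_inner_self_eq_norm_sq v
  rw [h]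
  positivity

end Pool.Agent.K1H99.HM
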