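import Pool.Agent.K1H99.HM.Smp

/-! Wirtinger derivatives of functions and of matrix valued functions. -/

set_option autoImplicit false

namespace Pool.Agent.K1H99.HM

open Complex Topology Module Matrix
open Pool.Agent.H234R3 (dd)

/-- `∂f/∂z` -/
noncomputable def dz (f : ℂ → ℂ) (z : ℂ) : ℂ := (fderiv ℝ f z 1 - I * fderiv ℝ f z I) / 2

/-- `∂f/∂z̄` -/
noncomputable def dzb (f : ℂ → ℂ) (z : ℂ) : ℂ := (fderiv ℝ f z 1 + I * fderiv ℝ f z I) / 2

section scalar

variable {f g : ℂ → ℂ} {z : ℂ}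

theorem dz_congr (h : f =ᶠ[𝓝 z] g) : dz f z = dz g z := by
  unfold dz; rw [h.fderiv_eq]

theorem dzb_congr (h : f =ᶠ[𝓝 z] g) : dzb f z = dzb g z := by
  unfold dzb; rw [h.fderiv_eq]

theorem dz_add (hf : DifferentiableAt ℝ f z) (hg : DifferentiableAt ℝ g z) :
    dz (fun w => f w + g w) z = dz f z + dz g z := by
  unfold dz
  rw [fderiv_fun_add hf hg]
  simp only [_root_.add_apply]
  ring

theorem dzb_add (hf : DifferentiableAt ℝ f z) (hg : DifferentiableAt ℝ g z) :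
    dzb (fun w => f w + g w) z = dzb f z + dzb g z := by
  unfold dzb
  rw [fderiv_fun_add hf hg]
  simp only [_root_.add_apply]
  ring

theorem dz_neg : dz (fun w => - f w) z = - dz f z := by
  unfold dz
  rw [fderiv_fun_neg]
  simp only [_root_.neg_apply]
  ring

theorem dzb_neg : dzb (fun w => - f w) z = - dzb f z := by
  unfold dzb
  rw [fderiv_fun_neg]
  simp only [_root_.neg_apply]
  ring

theorem dz_mul (hf : DifferentiableAt ℝ f z) (hg : DifferentiableAt ℝ g z) :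
    dz (fun w => f w * g w) z = dz f z * g z + f z * dz g z := by
  unfold dz
  rw [fderiv_fun_mul hf hg]
  simp only [_root_.add_apply, _root_.smul_apply, smul_eq_mul]
  ring

theorem dzb_mul (hf : DifferentiableAt ℝ f z) (hg : DifferentiableAt ℝ g z) :
    dzb (fun w => f w * g w) z = dzb f z * g z + f z * dzb g z := by
  unfold dzb
  rw [fderiv_fun_mul hf hg]
  simp only [_root_.add_apply, _root_.smul_apply, smul_eq_mul]
  ring

theorem dz_const (c : ℂ) : dz (fun _ => c) z = 0 := by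
  unfold dz; simp

theorem dzb_const (c : ℂ) : dzb (fun _ => c) z = 0 := by
  unfold dzb; simp

theorem dz_star (hf : DifferentiableAt ℝ f z) :
    dz (fun w => star (f w)) z = star (dzb f z) := by
  unfold dz dzb
  have h : fderiv ℝ (fun w => star (f w)) z =
      (conjCLE : ℂ →L[ℝ] ℂ).comp (fderiv ℝ f z) :=
    ((conjCLE : ℂ →L[ℝ] ℂ).hasFDerivAt.comp z hf.hasFDerivAt).fderiv
  rw [h]
  simp only [ContinuousLinearMap.coe_comp, Function.comp_apply, ContinuousLinearEquiv.coe_coe,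
    conjCLE_apply, RCLike.star_def, map_div₀, map_add, map_mul, conj_I, map_ofNat]
  ring

theorem dzb_star (hf : DifferentiableAt ℝ f z) :
    dzb (fun w => star (f w)) z = star (dz f z) := by
  unfold dz dzb
  have h : fderiv ℝ (fun w => star (f w)) z =
      (conjCLE : ℂ →L[ℝ] ℂ).comp (fderiv ℝ f z) :=
    ((conjCLE : ℂ →L[ℝ] ℂ).hasFDerivAt.comp z hf.hasFDerivAt).fderiv
  rw [h]
  simp only [ContinuousLinearMap.coe_comp, Function.comp_apply, ContinuousLinearEquiv.coe_coe,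
    conjCLE_apply, RCLike.star_def, map_div₀, map_sub, map_mul, conj_I, map_ofNat]
  ring

theorem diff_of_C2 (hf : ContDiffAt ℝ 2 f z) : DifferentiableAt ℝ f z :=
  hf.differentiableAt (by norm_num)

theorem diff_fderiv (hf : ContDiffAt ℝ 2 f z) (a : ℂ) :
    DifferentiableAt ℝ (fun w => fderiv ℝ f w a) z := by
  have h1 : ContDiffAt ℝ 1 (fderiv ℝ f) z := hf.fderiv_right (by norm_num)
  exact (h1.differentiableAt (by simp)).clm_apply (differentiableAt_const _)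

theorem diff_dz (hf : ContDiffAt ℝ 2 f z) : DifferentiableAt ℝ (dz f) z := by
  have h1 := diff_fderiv hf 1
  have h2 := diff_fderiv hf I
  have h3 : dz f = fun w => (fderiv ℝ f w 1 - I * fderiv ℝ f w I) * (2 : ℂ)⁻¹ := by
    funext w
    unfold dz
    rw [div_eq_mul_inv]
  rw [h3]
  exact (h1.sub (h2.const_mul I)).mul_const _

theorem diff_dzb (hf : ContDiffAt ℝ 2 f z) : DifferentiableAt ℝ (dzb f) z := by
  have h1 := diff_fderiv hf 1
  have h2 := diff_fderiv hf I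
  have h3 : dzb f = fun w => (fderiv ℝ f w 1 + I * fderiv ℝ f w I) * (2 : ℂ)⁻¹ := by
    funext w
    unfold dzb
    rw [div_eq_mul_inv]
  rw [h3]
  exact (h1.add (h2.const_mul I)).mul_const _

theorem dd_eq {U : ℂ → ℝ} {y : ℂ} (hU : ContDiffAt ℝ 2 U y) (a : ℂ) :
    dd U y a = fderiv ℝ (fun w => fderiv ℝ U w a) y a := by
  unfold dd
  have hl : ∀ t : ℝ, HasDerivAt (fun t : ℝ => y + t • a) a t := by
    intro t
    simpa using ((hasDerivAt_id t).smul_const a).const_add y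
  have hev : ∀ᶠ w in 𝓝 y, DifferentiableAt ℝ U w := by
    have h := hU.eventually (by simp)
    exact h.mono fun w hw => hw.differentiableAt (by norm_num)
  have hc : ContinuousAt (fun t : ℝ => y + t • a) 0 := by fun_prop
  have hev2 : ∀ᶠ t in 𝓝 (0 : ℝ), DifferentiableAt ℝ U (y + t • a) := by
    have : Filter.Tendsto (fun t : ℝ => y + t • a) (𝓝 0) (𝓝 y) := by simpa using hc.tendsto
    exact this.eventually hev
  have h1 : deriv (fun t : ℝ => U (y + t • a)) =ᶠ[𝓝 0] fun t => fderiv ℝ U (y + t • a) a := by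
    filter_upwards [hev2] with t ht
    exact (ht.hasFDerivAt.comp_hasDerivAt t (hl t)).deriv
  rw [h1.deriv_eq]
  have h2 : DifferentiableAt ℝ (fun w => fderiv ℝ U w a) y := by
    have h1 : ContDiffAt ℝ 1 (fderiv ℝ U) y := hU.fderiv_right (by norm_num)
    exact (h1.differentiableAt (by simp)).clm_apply (differentiableAt_const _)
  have h3 : HasFDerivAt (fun w => fderiv ℝ U w a) (fderiv ℝ (fun w => fderiv ℝ U w a) y)
      (y + (0 : ℝ) • a) := by simpa using h2.hasFDerivAt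
  exact (h3.comp_hasDerivAt (0 : ℝ) (hl 0)).deriv

/-- For a real valued function `∂²/∂z̄∂z` is a quarter of the Laplacian. -/
theorem lap_eq {U : ℂ → ℝ} {y : ℂ} (hU : ContDiffAt ℝ 2 U y) :
    dd U y 1 + dd U y I = 4 * (dzb (dz (fun w => (U w : ℂ))) y).re := by
  rw [dd_eq hU, dd_eq hU]
  have hev : ∀ᶠ w in 𝓝 y, ContDiffAt ℝ 2 U w := hU.eventually (by simp)
  have hof : ∀ {V : ℂ → ℝ} {w : ℂ}, DifferentiableAt ℝ V w → ∀ a,
      fderiv ℝ (fun w => (V w : ℂ)) w a = ((fderiv ℝ V w a : ℝ) : ℂ) := by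
    intro V w hV a
    have h : fderiv ℝ (fun w => (V w : ℂ)) w = (ofRealCLM : ℝ →L[ℝ] ℂ).comp (fderiv ℝ V w) :=
      ((ofRealCLM : ℝ →L[ℝ] ℂ).hasFDerivAt.comp w hV.hasFDerivAt).fderiv
    rw [h]
    rfl
  have h1 : dz (fun w => (U w : ℂ)) =ᶠ[𝓝 y] fun w =>
      (((fderiv ℝ U w 1 : ℝ) : ℂ) - I * ((fderiv ℝ U w I : ℝ) : ℂ)) / 2 := by
    filter_upwards [hev] with w hw
    unfold dz
    rw [hof (hw.differentiableAt (by norm_num)), hof (hw.differentiableAt (by norm_num))]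
  rw [dzb_congr h1]
  have h2 : ∀ a : ℂ, DifferentiableAt ℝ (fun w => fderiv ℝ U w a) y := by
    intro a
    have h1 : ContDiffAt ℝ 1 (fderiv ℝ U) y := hU.fderiv_right (by norm_num)
    exact (h1.differentiableAt (by simp)).clm_apply (differentiableAt_const _)
  have h3 : ∀ a : ℂ, DifferentiableAt ℝ (fun w => ((fderiv ℝ U w a : ℝ) : ℂ)) y := fun a =>
    ((ofRealCLM : ℝ →L[ℝ] ℂ).differentiableAt.comp y (h2 a))
  have h4 : ∀ b : ℂ, fderiv ℝ (fun w => (((fderiv ℝ U w 1 : ℝ) : ℂ) -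
      I * ((fderiv ℝ U w I : ℝ) : ℂ)) / 2) y b =
      (((fderiv ℝ (fun w => fderiv ℝ U w 1) y b : ℝ) : ℂ) -
        I * ((fderiv ℝ (fun w => fderiv ℝ U w I) y b : ℝ) : ℂ)) / 2 := by
    intro b
    have h5 := (((h3 1).hasFDerivAt.sub ((h3 I).hasFDerivAt.const_mul I)).mul_const (2 : ℂ)⁻¹).fderiv
    have h6 : (fun w => (((fderiv ℝ U w 1 : ℝ) : ℂ) - I * ((fderiv ℝ U w I : ℝ) : ℂ)) / 2) =
        fun w => (((fderiv ℝ U w 1 : ℝ) : ℂ) - I * ((fderiv ℝ U w I : ℝ) : ℂ)) * (2 : ℂ)⁻¹ := by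
      funext w
      rw [div_eq_mul_inv]
    rw [h6]
    erw [h5]
    simp only [_root_.smul_apply, _root_.sub_apply, smul_eq_mul]
    rw [hof (h2 1), hof (h2 I)]
    ring
  unfold dzb
  rw [h4, h4]
  simp
  ring

end scalar

/-! ### Matrix valued functions -/

/-- `2 × 2` matrices -/
abbrev M2 := Matrix (Fin 2) (Fin 2) ℂ

/-- `∂F/∂z`, entry by entry -/
noncomputable def Dz (F : ℂ → M2) (z : ℂ) : M2 := Matrix.of fun i j => dz (fun w => F w i j) z

/-- `∂F/∂z̄`, entry by entry -/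
noncomputable def Dzb (F : ℂ → M2) (z : ℂ) : M2 := Matrix.of fun i j => dzb (fun w => F w i j) z

/-- the entries are differentiable -/
def MD (F : ℂ → M2) (z : ℂ) : Prop := ∀ i j, DifferentiableAt ℝ (fun w => F w i j) z

/-- the entries are twice continuously differentiable -/
def MC2 (F : ℂ → M2) (z : ℂ) : Prop := ∀ i j, ContDiffAt ℝ 2 (fun w => F w i j) z

section matrix

variable {F G : ℂ → M2} {z : ℂ}

theorem MC2.md (h : MC2 F z) : MD F z := fun i j => diff_of_C2 (h i j)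

theorem MC2.mdz (h : MC2 F z) : MD (Dz F) z := fun i j => diff_dz (h i j)

theorem MC2.mul (hF : MC2 F z) (hG : MC2 G z) : MC2 (fun w => F w * G w) z := by
  intro i j
  simp only [Matrix.mul_apply, Fin.sum_univ_two]
  exact ((hF _ _).mul (hG _ _)).add ((hF _ _).mul (hG _ _))

theorem MD.mul (hF : MD F z) (hG : MD G z) : MD (fun w => F w * G w) z := by
  intro i j
  simp only [Matrix.mul_apply, Fin.sum_univ_two]
  exact ((hF _ _).mul (hG _ _)).add ((hF _ _).mul (hG _ _))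

theorem MD.neg (hF : MD F z) : MD (fun w => - F w) z := fun i j => (hF i j).neg

theorem Dz_mul (hF : MD F z) (hG : MD G z) :
    Dz (fun w => F w * G w) z = Dz F z * G z + F z * Dz G z := by
  ext i j
  simp only [Dz, Matrix.of_apply, Matrix.mul_apply, Matrix.add_apply, Fin.sum_univ_two]
  have e : dz (fun w => F w i 0 * G w 0 j + F w i 1 * G w 1 j) z =
      dz (fun w => F w i 0 * G w 0 j) z + dz (fun w => F w i 1 * G w 1 j) z :=
    dz_add (f := fun w => F w i 0 * G w 0 j) (g := fun w => F w i 1 * G w 1 j)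
      ((hF i 0).mul (hG 0 j)) ((hF i 1).mul (hG 1 j))
  rw [e, dz_mul (hF i 0) (hG 0 j), dz_mul (hF i 1) (hG 1 j)]
  ring

theorem Dzb_mul (hF : MD F z) (hG : MD G z) :
    Dzb (fun w => F w * G w) z = Dzb F z * G z + F z * Dzb G z := by
  ext i j
  simp only [Dzb, Matrix.of_apply, Matrix.mul_apply, Matrix.add_apply, Fin.sum_univ_two]
  have e : dzb (fun w => F w i 0 * G w 0 j + F w i 1 * G w 1 j) z =
      dzb (fun w => F w i 0 * G w 0 j) z + dzb (fun w => F w i 1 * G w 1 j) z :=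
    dzb_add (f := fun w => F w i 0 * G w 0 j) (g := fun w => F w i 1 * G w 1 j)
      ((hF i 0).mul (hG 0 j)) ((hF i 1).mul (hG 1 j))
  rw [e, dzb_mul (hF i 0) (hG 0 j), dzb_mul (hF i 1) (hG 1 j)]
  ring

theorem Dzb_add (hF : MD F z) (hG : MD G z) :
    Dzb (fun w => F w + G w) z = Dzb F z + Dzb G z := by
  ext i j
  simp only [Dzb, Matrix.of_apply, Matrix.add_apply]
  rw [dzb_add (hF _ _) (hG _ _)]

theorem Dzb_neg : Dzb (fun w => - F w) z = - Dzb F z := by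
  ext i j
  simp only [Dzb, Matrix.of_apply, Matrix.neg_apply]
  rw [dzb_neg]

theorem Dz_congr (h : F =ᶠ[𝓝 z] G) : Dz F z = Dz G z := by
  ext i j
  exact dz_congr (h.mono fun w hw => by simp only [hw])

theorem Dzb_congr (h : F =ᶠ[𝓝 z] G) : Dzb F z = Dzb G z := by
  ext i j
  exact dzb_congr (h.mono fun w hw => by simp only [hw])

theorem Dz_const (A : M2) : Dz (fun _ => A) z = 0 := by
  ext i j
  simp only [Dz, Matrix.of_apply, Matrix.zero_apply, dz_const]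

theorem Dzb_const (A : M2) : Dzb (fun _ => A) z = 0 := by
  ext i j
  simp only [Dzb, Matrix.of_apply, Matrix.zero_apply, dzb_const]

/-- `∂̄` of a Hermitian matrix is the adjoint of `∂` of it. -/
theorem Dz_herm (hF : MD F z) (h : ∀ᶠ w in 𝓝 z, (F w).IsHermitian) :
    (Dz F z)ᴴ = Dzb F z := by
  ext i j
  simp only [Dz, Dzb, Matrix.conjTranspose_apply, Matrix.of_apply]
  rw [← dzb_star (hF j i)]
  exact dzb_congr (h.mono fun w hw => hw.apply i j)

/-- the inverse of a matrix of determinant one -/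
theorem inv_eq {A : M2} (h : A.det = 1) : A⁻¹ = !![A 1 1, -A 0 1; -A 1 0, A 0 0] := by
  rw [Matrix.inv_def, h, Ring.inverse_one, one_smul, Matrix.adjugate_fin_two]

theorem MC2.inv (hF : MC2 F z) (h : ∀ᶠ w in 𝓝 z, (F w).det = 1) : MC2 (fun w => (F w)⁻¹) z := by
  intro i j
  have h1 : (fun w => (F w)⁻¹ i j) =ᶠ[𝓝 z] fun w =>
      (!![F w 1 1, -F w 0 1; -F w 1 0, F w 0 0] : M2) i j := by
    filter_upwards [h] with w hw
    rw [inv_eq hw]
  refine ContDiffAt.congr_of_eventuallyEq ?_ h1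
  fin_cases i <;> fin_cases j
  · simpa using hF 1 1
  · simpa using (hF 0 1).neg
  · simpa using (hF 1 0).neg
  · simpa using hF 0 0

theorem mul_inv_one {A : M2} (h : A.det = 1) : A * A⁻¹ = 1 :=
  Matrix.mul_nonsing_inv A (by rw [h]; exact isUnit_one)

theorem inv_mul_one {A : M2} (h : A.det = 1) : A⁻¹ * A = 1 :=
  Matrix.nonsing_inv_mul A (by rw [h]; exact isUnit_one)

theorem Dz_inv (hF : MC2 F z) (h : ∀ᶠ w in 𝓝 z, (F w).det = 1) :
    Dz (fun w => (F w)⁻¹) z = - ((F z)⁻¹ * Dz F z * (F z)⁻¹) := by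
  have h1 : (fun w => (F w)⁻¹ * F w) =ᶠ[𝓝 z] fun _ => 1 := by
    filter_upwards [h] with w hw
    exact inv_mul_one hw
  have h2 := Dz_congr h1
  rw [Dz_mul (hF.inv h).md hF.md, Dz_const] at h2
  have h3 := mul_inv_one h.self_of_nhds
  calc Dz (fun w => (F w)⁻¹) z = Dz (fun w => (F w)⁻¹) z * (F z * (F z)⁻¹) := by
        rw [h3, Matrix.mul_one]
    _ = (Dz (fun w => (F w)⁻¹) z * F z) * (F z)⁻¹ := by rw [Matrix.mul_assoc]
    _ = _ := by
        rw [eq_neg_of_add_eq_zero_left h2, Matrix.neg_mul]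

theorem Dzb_inv (hF : MC2 F z) (h : ∀ᶠ w in 𝓝 z, (F w).det = 1) :
    Dzb (fun w => (F w)⁻¹) z = - ((F z)⁻¹ * Dzb F z * (F z)⁻¹) := by
  have h1 : (fun w => (F w)⁻¹ * F w) =ᶠ[𝓝 z] fun _ => 1 := by
    filter_upwards [h] with w hw
    exact inv_mul_one hw
  have h2 := Dzb_congr h1
  rw [Dzb_mul (hF.inv h).md hF.md, Dzb_const] at h2
  have h3 := mul_inv_one h.self_of_nhds
  calc Dzb (fun w => (F w)⁻¹) z = Dzb (fun w => (F w)⁻¹) z * (F z * (F z)⁻¹) := by
        rw [h3, Matrix.mul_one]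
    _ = (Dzb (fun w => (F w)⁻¹) z * F z) * (F z)⁻¹ := by rw [Matrix.mul_assoc]
    _ = _ := by
        rw [eq_neg_of_add_eq_zero_left h2, Matrix.neg_mul]

/-- the curvature -/
noncomputable def curv (H : ℂ → M2) (z : ℂ) : M2 := Dzb (fun w => (H w)⁻¹ * Dz H w) z

theorem MD.inv (hF : MC2 F z) (h : ∀ᶠ w in 𝓝 z, (F w).det = 1) : MD (fun w => (F w)⁻¹) z :=
  (hF.inv h).md

theorem Dzb_Dz (hF : MC2 F z) (h : ∀ᶠ w in 𝓝 z, (F w).det = 1) :
    Dzb (Dz F) z = F z * curv F z + Dzb F z * (F z)⁻¹ * Dz F z := by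
  unfold curv
  rw [Dzb_mul (hF.inv h).md hF.mdz, Dzb_inv hF h]
  have h3 := mul_inv_one h.self_of_nhds
  have i2 : ∀ X : M2, F z * ((F z)⁻¹ * X) = X := fun X => by
    rw [← Matrix.mul_assoc, h3, Matrix.one_mul]
  simp only [Matrix.mul_add, Matrix.neg_mul, Matrix.mul_neg, Matrix.mul_assoc, i2]
  abel

/-- The second derivative of `K⁻¹ H`. -/
theorem second {H K : ℂ → M2} (hH : MC2 H z) (hK : MC2 K z)
    (h1 : ∀ᶠ w in 𝓝 z, (H w).det = 1) (k1 : ∀ᶠ w in 𝓝 z, (K w).det = 1) :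
    Dzb (Dz (fun w => (K w)⁻¹ * H w)) z =
      -(curv K z * (K z)⁻¹ * H z) + (K z)⁻¹ * H z * curv H z +
      ((K z)⁻¹ * Dz K z * (K z)⁻¹ * Dzb K z * (K z)⁻¹ * H z
        - (K z)⁻¹ * Dz K z * (K z)⁻¹ * Dzb H z
        - (K z)⁻¹ * Dzb K z * (K z)⁻¹ * Dz H z
        + (K z)⁻¹ * Dzb H z * (H z)⁻¹ * Dz H z) := by
  have hHe : ∀ᶠ w in 𝓝 z, MC2 H w := by
    simp only [MC2, Filter.eventually_all]
    exact fun i j => (hH i j).eventually (by simp)
  have hKe : ∀ᶠ w in 𝓝 z, MC2 K w := by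
    simp only [MC2, Filter.eventually_all]
    exact fun i j => (hK i j).eventually (by simp)
  have e1 : Dz (fun w => (K w)⁻¹ * H w) =ᶠ[𝓝 z] fun w =>
      -((K w)⁻¹ * Dz K w * (K w)⁻¹ * H w) + (K w)⁻¹ * Dz H w := by
    filter_upwards [hHe, hKe, k1.eventually_nhds] with w hHw hKw k1w
    rw [Dz_mul (hKw.inv k1w).md hHw.md, Dz_inv hKw k1w, Matrix.neg_mul]
  rw [Dzb_congr e1]
  have mKi := (hK.inv k1).md
  have mA : MD (fun w => (K w)⁻¹ * Dz K w) z := mKi.mul hK.mdz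
  have mB : MD (fun w => (K w)⁻¹ * Dz K w * (K w)⁻¹) z := mA.mul mKi
  have mC : MD (fun w => (K w)⁻¹ * Dz K w * (K w)⁻¹ * H w) z := mB.mul hH.md
  rw [Dzb_add mC.neg (mKi.mul hH.mdz), Dzb_neg, Dzb_mul mB hH.md, Dzb_mul mA mKi,
    Dzb_mul mKi hK.mdz, Dzb_mul mKi hH.mdz, Dzb_inv hK k1, Dzb_Dz hK k1, Dzb_Dz hH h1]
  have i1 := inv_mul_one k1.self_of_nhds
  have i2 : ∀ X : M2, (K z)⁻¹ * (K z * X) = X := fun X => by
    rw [← Matrix.mul_assoc, i1, Matrix.one_mul]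
  simp only [Matrix.mul_add, Matrix.add_mul, Matrix.neg_mul, Matrix.mul_neg, Matrix.mul_assoc, i2]
  abel

end matrix

end Pool.Agent.K1H99.HM
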